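import Pool.Agent.Helper64.LN.GoalsB

set_option autoImplicit false

/-! Project LN (MP_2b9d24_gt, phase 2): goal GA2. -/

open Topology Filter Set Metric UpperHalfPlane
open scoped MatrixGroups
open Pool.Agent.Helper64 Pool.Agent.Helper64.LN

namespace Pool.Agent.Helper60.LN

universe v

section Cov
variable {X : Type v} [TopologicalSpace X]

lemma uni_mem {B : Set X} {u : ℍ → X} (hu : Uni B u) (z : ℍ) : u z ∈ (Bᶜ : Set X) := by
  rw [← hu.range]
  exact ⟨z, rfl⟩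

lemma uni_isCov {B : Set X} {u : ℍ → X} (hu : Uni B u) :
    IsCoveringMap (Set.codRestrict u Bᶜ (uni_mem hu)) := by
  have e : u ⁻¹' Bᶜ = univ := by
    ext z
    simp only [mem_preimage, mem_univ, iff_true]
    exact uni_mem hu z
  let g : ℍ ≃ₜ (u ⁻¹' Bᶜ : Set ℍ) :=
    (Homeomorph.Set.univ ℍ).symm.trans (Homeomorph.setCongr e.symm)
  have h := (hu.cov.isCoveringMap_restrictPreimage).comp_homeomorph g
  convert! h using 1

lemma uni_lift {B : Set X} {u : ℍ → X} (hu : Uni B u) (γ : C(unitInterval, X))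
    (hγ : ∀ t, γ t ∈ (Bᶜ : Set X)) (z : ℍ) (hz : u z = γ 0) :
    ∃ c : C(unitInterval, ℍ), c 0 = z ∧ ∀ t, u (c t) = γ t := by
  obtain ⟨c, h1, h2⟩ := (uni_isCov hu).exists_path_lifts
    ⟨fun t => ⟨γ t, hγ t⟩, by fun_prop⟩ z (Subtype.ext hz.symm)
  refine ⟨c, h2, fun t => ?_⟩
  exact congrArg Subtype.val (congrFun h1 t)

end Cov

lemma Sz_comm {F : ℍ ≃ₜ ℍ} {z w : ℍ} (h : Sz F z w) : Sz F w z := by
  obtain ⟨g, h1, h2⟩ := h
  exact ⟨g, h1, by rwa [mul_comm]⟩

/-- A matrix commuting with a conjugate of the translation is not hyperbolic. -/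
lemma trace_of_comm (g A : SL(2, ℝ)) (h : mh g * mh (A * PQ.T1 * A⁻¹) =
    mh (A * PQ.T1 * A⁻¹) * mh g) : |g 0 0 + g 1 1| ≤ 2 := by
  rw [← map_mul, ← map_mul, mh_eq_iff] at h
  set k : SL(2, ℝ) := A⁻¹ * g * A with hk
  have htr : g 0 0 + g 1 1 = k 0 0 + k 1 1 := by
    have hdet := A.det_coe
    rw [Matrix.det_fin_two] at hdet
    simp only [hk, Matrix.SpecialLinearGroup.coe_mul, Matrix.SpecialLinearGroup.coe_inv,
      Matrix.adjugate_fin_two, Matrix.mul_apply, Fin.sum_univ_two, Matrix.of_apply,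
      Matrix.cons_val', Matrix.cons_val_zero, Matrix.cons_val_one, Matrix.cons_val_fin_one]
    linear_combination (-(g 0 0) - g 1 1) * hdet
  have hkd := k.det_coe
  rw [Matrix.det_fin_two] at hkd
  have h2 : k * PQ.T1 = PQ.T1 * k ∨ k * PQ.T1 = -(PQ.T1 * k) := by
    rcases h with h | h
    · left
      have := congrArg (fun m => A⁻¹ * m * A) h
      simpa [hk, mul_assoc] using this
    · right
      have := congrArg (fun m => A⁻¹ * m * A) h
      simpa [hk, mul_assoc] using this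
  rw [htr]
  rcases h2 with h2 | h2
  · have e00 := congrArg (fun m : SL(2, ℝ) => m 0 0) h2
    have e01 := congrArg (fun m : SL(2, ℝ) => m 0 1) h2
    simp [PQ.T1, Matrix.SpecialLinearGroup.coe_mul, Matrix.mul_apply, Fin.sum_univ_two] at e00 e01
    have hc : k 1 0 = 0 := by linarith
    have hd : k 0 0 = k 1 1 := by linarith
    rw [hc, hd] at hkd
    have : k 1 1 ^ 2 = 1 := by nlinarith
    have h3 : |k 1 1| = 1 := by
      rw [← sq_eq_sq₀ (abs_nonneg _) zero_le_one, sq_abs, this]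
      norm_num
    rw [hd, ← two_mul, abs_mul, h3]
    norm_num
  · have e00 : (k * PQ.T1) 0 0 = -((PQ.T1 * k) 0 0) := by rw [h2]; rfl
    have e01 : (k * PQ.T1) 0 1 = -((PQ.T1 * k) 0 1) := by rw [h2]; rfl
    have e10 : (k * PQ.T1) 1 0 = -((PQ.T1 * k) 1 0) := by rw [h2]; rfl
    have e11 : (k * PQ.T1) 1 1 = -((PQ.T1 * k) 1 1) := by rw [h2]; rfl
    simp [PQ.T1, Matrix.SpecialLinearGroup.coe_mul, Matrix.mul_apply, Fin.sum_univ_two]
      at e00 e01 e10 e11
    have hc : k 1 0 = 0 := by linarith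
    have h0 : k 0 0 = 0 := by linarith
    rw [hc, h0] at hkd
    norm_num at hkd

/-- GOAL GA2. -/
theorem goalGA2 (hG0 : GoalG0.{v}) (hCR3 : GoalCR3) (hPRE : GoalPRE.{v}) (hREG : GoalREG.{v})
    (hSZ : GoalSZ) (hCU1 : GoalCU1.{v}) : GoalGA2.{v} := by
  intro X _ _ p P u C K γ ω W A ζ hC hB ν hν hO hhν hnc
  have huni := hC.uni
  have hgood := hG0 X (insert p P) u huni
  obtain ⟨-, hpre⟩ := hPRE X p P u C K γ ω hC
  obtain ⟨hpiD, -, -⟩ := hCU1 X p (insert p P) u A huni (mem_insert _ _) hB.cusp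
  obtain ⟨g₀, hg₀, hγ⟩ := mem_deck.1 hC.deck
  have hg₀' : g₀ ∈ PQ.deckG u := hg₀
  -- `γ` is hyperbolic
  have htr : 2 < |g₀ 0 0 + g₀ 1 1| := by
    obtain ⟨e, he, hcr⟩ := hC.hp
    obtain ⟨d, hd, rfl⟩ := mem_deck.1 he
    rw [hγ] at hcr
    exact (hCR3 _ hgood g₀ hg₀' d hd hcr).1
  have hhy : ∀ g ∈ deck u, hy (g * γ * g⁻¹) := by
    intro g hg
    obtain ⟨m, -, rfl⟩ := mem_deck.1 hg
    refine ⟨m * g₀ * m⁻¹, by rw [hγ, ← map_inv, ← map_mul, ← map_mul], ?_⟩
    have hdet := m.det_coe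
    rw [Matrix.det_fin_two] at hdet
    have e : (m * g₀ * m⁻¹) 0 0 + (m * g₀ * m⁻¹) 1 1 = g₀ 0 0 + g₀ 1 1 := by
      simp only [Matrix.SpecialLinearGroup.coe_mul, Matrix.SpecialLinearGroup.coe_inv,
        Matrix.adjugate_fin_two, Matrix.mul_apply, Fin.sum_univ_two, Matrix.of_apply,
        Matrix.cons_val', Matrix.cons_val_zero, Matrix.cons_val_one, Matrix.cons_val_fin_one]
      linear_combination (g₀ 0 0 + g₀ 1 1) * hdet
    rw [e]
    exact htr
  -- axes lie over the curve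
  have hax : ∀ g ∈ deck u, ∀ z, u z ∉ C '' sphere (0 : ℂ) 1 → z ∉ ax (g * γ * g⁻¹) :=
    fun g hg z hz h => hz ((hpre z).2 ⟨g, hg, h⟩)
  have hKc : IsClosed K := hC.comp.isClosed
  have hout : ∀ x, x ∉ K → x ∉ C '' sphere (0 : ℂ) 1 := by
    intro x hx h
    rw [← hC.fr] at h
    exact hx (hKc.frontier_subset h)
  have hin : ∀ x, x ∈ interior K → x ∉ C '' sphere (0 : ℂ) 1 := by
    intro x hx h
    rw [← hC.fr] at h
    exact h.2 hx
  obtain ⟨σ, hσ, hσK⟩ := hO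
  have h32 : (3 / 2 : ℝ) ∈ Ioo (1 / 2 : ℝ) 2 := ⟨by norm_num, by norm_num⟩
  -- the outer curve
  have hnorm : ∀ t : ℝ, ‖(((3 / 2 : ℝ) : ℂ) * Complex.exp (2 * Real.pi * Complex.I * t))‖ =
      3 / 2 := by
    intro t
    rw [norm_mul, show (2 * Real.pi * Complex.I * t : ℂ) = ((2 * Real.pi * t : ℝ) : ℂ) * Complex.I by
      push_cast; ring, Complex.norm_exp_ofReal_mul_I, mul_one, Complex.norm_real]
    norm_num
  have hWK : ∀ t, u (W t (3 / 2)) ∉ K := by
    intro t h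
    rw [hB.lift t _ h32, hC.col] at h
    · rw [hnorm] at h
      norm_num at h
    · rw [hC.src]
      rw [Set.mem_ofPred_eq]
      rw [hnorm]
      norm_num
  have hWc : Continuous (fun t : ℝ => W t (3 / 2)) := by
    have h1 := hB.cont
    have h2 : Continuous (fun t : ℝ => (t, (3 / 2 : ℝ))) := by fun_prop
    exact h1.comp_continuous h2 (fun t => ⟨mem_univ _, h32⟩)
  let η : C(ℝ, ℍ) := ⟨fun t => W t (3 / 2), hWc⟩
  -- the path
  have hmemP : ∀ z : ℍ, u z ∉ P := fun z h => uni_mem huni z (mem_insert_of_mem _ h)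
  obtain ⟨path, hpath⟩ := hC.conn'.joinedIn (u (W 0 (3 / 2))) ⟨hWK 0, hmemP _⟩ (u (σ 0))
    ⟨hσK 0, hmemP _⟩
  obtain ⟨c, hc0, hc⟩ := uni_lift huni path.toContinuousMap (fun t => by
    intro h
    have h1 := hpath t
    rcases h with h | h
    · have h2 : path t = p := h
      rw [h2] at h1
      exact h1.1 (interior_subset hC.pK)
    · exact h1.2 h) (W 0 (3 / 2)) path.source.symm
  have hcK : ∀ t, u (c t) ∉ K := by
    intro t
    rw [hc t]
    exact (hpath t).1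
  have hc1 : u (σ 0) = u (c 1) := by
    rw [hc 1]
    exact path.target.symm
  obtain ⟨m, hm1, hm2⟩ := huni.deck _ _ hc1
  have hmD : mh m ∈ deck u := mem_deck.2 ⟨m, hm2, rfl⟩
  have hreg := (hREG X p P u C K γ ω hC (W 0 (3 / 2)) (c 1) (hout _ (hWK 0))
    (hout _ (hcK 1))).2 ⟨c, hc0, rfl, fun t => hout _ (hcK t)⟩
  -- the curve `h σ`
  let σ' : C(ℝ, ℍ) := ⟨fun t => mh m (σ t), (mh m).continuous.comp σ.continuous⟩
  have hσ' : ∀ t, σ' (t + 1) = (mh m * ν * (mh m)⁻¹) (σ' t) := by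
    intro t
    change mh m (σ (t + 1)) = mh m (ν ((mh m).symm (mh m (σ t))))
    rw [hσ, (mh m).symm_apply_apply]
  have hσ'K : ∀ t, u (σ' t) ∉ K := by
    intro t
    change u (mh m (σ t)) ∉ K
    rw [deck_apply hmD]
    exact hσK t
  have hσ'0 : σ' 0 = c 1 := hm1
  have hνD : mh m * ν * (mh m)⁻¹ ∈ deck u := mul_mem (mul_mem hmD hν) (inv_mem hmD)
  have hnc' : ∀ g ∈ deck u, Nc (g * γ * g⁻¹) (mh m * ν * (mh m)⁻¹) := by
    intro g hg h
    refine hnc ((mh m)⁻¹ * g) (mul_mem (inv_mem hmD) hg) ?_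
    have h2 := congrArg (fun x => (mh m)⁻¹ * x * mh m) h
    simp only [mul_assoc, mul_inv_rev, inv_inv, inv_mul_cancel_left, inv_mul_cancel, mul_one]
      at h2 ⊢
    exact h2
  have hone : (1 : ℍ ≃ₜ ℍ) * γ * (1 : ℍ ≃ₜ ℍ)⁻¹ = γ := by simp
  refine ⟨mh m, hmD, ?_, ?_⟩
  · -- `γ` separates
    have hvc : Continuous (fun t : ℝ => (t +ᵥ ζ : ℍ)) := by
      rw [UpperHalfPlane.isEmbedding_coe.continuous_iff]
      have : ((fun z : ℍ => (z : ℂ)) ∘ fun t : ℝ => (t +ᵥ ζ : ℍ)) = fun t : ℝ => (t : ℂ) + ζ := by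
        funext t
        simp
      rw [this]
      fun_prop
    let π' : C(ℝ, ℍ) := ⟨fun t => A • ((t : ℝ) +ᵥ ζ), (mh A).continuous.comp hvc⟩
    have hπ' : ∀ t, π' (t + 1) = piA A (π' t) := by
      intro t
      change A • ((t + 1 : ℝ) +ᵥ ζ) = (A * PQ.T1 * A⁻¹) • (A • ((t : ℝ) +ᵥ ζ))
      rw [mul_smul, mul_smul, inv_smul_smul]
      congr 1
      apply UpperHalfPlane.ext
      rw [UpperHalfPlane.coe_specialLinearGroup_apply]
      simp [PQ.T1]
      ring
    have hπ'K : ∀ t, u (π' t) ∈ interior K := by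
      intro t
      exact hB.inK _ (by rw [UpperHalfPlane.vadd_im])
    have hncpi : Nc γ (piA A) := by
      intro h
      rw [hγ, piA] at h
      exact absurd (trace_of_comm g₀ A h) (not_le.2 htr)
    have key := hSZ (PQ.deckG u) hgood γ hC.deck (mh m * ν * (mh m)⁻¹) hνD (piA A) hpiD
      ⟨g₀, hγ, htr⟩ (by have := hnc' 1 (one_mem _); rwa [hone] at this) hncpi σ' π' hσ' hπ'
      (fun t => by
        have := hax 1 (one_mem _) (σ' t) (hout _ (hσ'K t))
        rwa [hone] at this)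
      (fun t => by
        have := hax 1 (one_mem _) (π' t) (hin _ (hπ'K t))
        rwa [hone] at this) 0 0
    rw [key, hσ'0]
    have hπ'0 : π' 0 = A • ζ := by
      change A • ((0 : ℝ) +ᵥ ζ) = A • ζ
      rw [zero_vadd]
    rw [hπ'0, hγ, Sz_mh]
    have h1 := hreg 1 (one_mem _)
    rw [hone, hγ, Sz_mh] at h1
    have h2 := hB.near 1 (one_mem _)
    rw [hone, hγ, Sz_mh] at h2
    have h3 := hB.sides 0 0 (3 / 4) ⟨by norm_num, by norm_num⟩ (3 / 2) ⟨by norm_num, by norm_num⟩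
    rw [hγ, Sz_mh] at h3
    have n1 : sf g₀ (c 1) ≠ 0 := by
      have := hax 1 (one_mem _) (c 1) (hout _ (hcK 1))
      rw [hone, hγ, ax_mh] at this
      exact this
    have n2 : sf g₀ (A • ζ) ≠ 0 := by
      have := hax 1 (one_mem _) (π' 0) (hin _ (hπ'K 0))
      rw [hone, hγ, ax_mh, hπ'0] at this
      exact this
    rw [not_lt] at h1 h2
    generalize sf g₀ (c 1) = a at *
    generalize sf g₀ (A • ζ) = b at *
    generalize sf g₀ (W 0 (3 / 4)) = x at *
    generalize sf g₀ (W 0 (3 / 2)) = y at *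
    have hx : x ≠ 0 := by
      rintro rfl
      simp at h3
    have hy' : y ≠ 0 := by
      rintro rfl
      simp at h3
    have p1 : 0 < y * a := lt_of_le_of_ne h1 (mul_ne_zero hy' n1).symm
    have p2 : 0 < b * x := lt_of_le_of_ne h2 (mul_ne_zero n2 hx).symm
    have p3 : 0 < (y * a) * (b * x) := mul_pos p1 p2
    by_contra h4
    rw [not_lt] at h4
    have : (a * b) * (x * y) ≤ 0 := mul_nonpos_of_nonneg_of_nonpos h4 h3.le
    nlinarith
  · intro g hg hgn h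
    have key := hSZ (PQ.deckG u) hgood (g * γ * g⁻¹) (mul_mem (mul_mem hg hC.deck) (inv_mem hg))
      (mh m * ν * (mh m)⁻¹) hνD γ hC.deck (hhy g hg) (hnc' g hg) hgn σ' η hσ'
      (fun t => hB.per t _ h32) (fun t => hax g hg _ (hout _ (hσ'K t)))
      (fun t => hax g hg _ (hout _ (hWK t))) 0 0
    rw [key, hσ'0] at h
    exact hreg g hg (Sz_comm h)

end Pool.Agent.Helper60.LN
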